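import Pool.Agent.H76.MXT.Stmts

/-! The two pairs of opposite edges of a 4-cycle do not both cross (from S_PAR, S_LC1, S_LC2). -/

set_option autoImplicit false

namespace Pool.MXT

open Set

namespace C4

/-- A parametrisation of a simple curve. -/
theorem param {X : Set (ℝ × ℝ)} {p q : ℝ × ℝ} (h : MCR.SimpleCurve X p q) :
    ∃ f : ℝ → ℝ × ℝ, Continuous f ∧ f 0 = p ∧ f 1 = q ∧ InjOn f (Icc 0 1) ∧
      (∀ x ∈ Icc (0 : ℝ) 1, f x ∈ X) ∧ ∀ z ∈ X, ∃ x ∈ Icc (0 : ℝ) 1, f x = z := by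
  obtain ⟨γ, hinj, hr⟩ := h
  refine ⟨γ.extend, γ.continuous_extend, γ.extend_zero, γ.extend_one, ?_, ?_, ?_⟩
  · intro x hx y hy hxy
    rw [γ.extend_apply hx, γ.extend_apply hy] at hxy
    exact congrArg Subtype.val (hinj hxy)
  · intro x hx
    rw [γ.extend_apply hx, ← hr]
    exact ⟨_, rfl⟩
  · intro z hz
    rw [← hr] at hz
    obtain ⟨x, hx⟩ := hz
    exact ⟨x.1, x.2, by rw [γ.extend_apply x.2]; exact hx⟩

/-- Three pieces one after the other. -/
noncomputable def tri (f g h : ℝ → ℝ × ℝ) (s : ℝ) : ℝ × ℝ :=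
  if s ≤ 1 then f s else if s ≤ 2 then g (s - 1) else h (s - 2)

theorem tri_cont {f g h : ℝ → ℝ × ℝ} (hf : Continuous f) (hg : Continuous g) (hh : Continuous h)
    (h1 : f 1 = g 0) (h2 : g 1 = h 0) : Continuous (tri f g h) := by
  unfold tri
  refine Continuous.if_le hf (Continuous.if_le (hg.comp (by fun_prop)) (hh.comp (by fun_prop))
    continuous_id continuous_const ?_) continuous_id continuous_const ?_
  · intro x hx
    have hx' : x = 2 := hx
    rw [hx']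
    norm_num
    exact h2
  · intro x hx
    have hx' : x = 1 := hx
    rw [hx']
    norm_num
    exact h1

theorem tri_1 {f g h : ℝ → ℝ × ℝ} {s : ℝ} (hs : s ≤ 1) : tri f g h s = f s := by
  unfold tri
  rw [if_pos hs]

theorem tri_2 {f g h : ℝ → ℝ × ℝ} {s : ℝ} (h1 : f 1 = g 0) (hs : 1 ≤ s) (hs' : s ≤ 2) :
    tri f g h s = g (s - 1) := by
  unfold tri
  by_cases h : s ≤ 1
  · have : s = 1 := le_antisymm h hs
    rw [if_pos h, this, h1]
    norm_num
  · rw [if_neg h, if_pos hs']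

theorem tri_3 {f g h : ℝ → ℝ × ℝ} {s : ℝ} (h2 : g 1 = h 0) (hs : 2 ≤ s) :
    tri f g h s = h (s - 2) := by
  unfold tri
  have h1 : ¬ s ≤ 1 := by linarith
  rw [if_neg h1]
  by_cases h : s ≤ 2
  · have : s = 2 := le_antisymm h hs
    rw [if_pos h, this]
    norm_num
    exact h2
  · rw [if_neg h]

end C4

open C4 in
theorem c4_thm (hPAR : S_PAR) (hLC1 : S_LC1) (hLC2 : S_LC2) {V : Type} {K : SimpleGraph V}
    (D : MCR.Drawing K) (a b c d : V) (hab : K.Adj a b) (hcd : K.Adj c d) (hac : K.Adj a c)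
    (hbd : K.Adj b d) (had : a ≠ d) (hbc : b ≠ c)
    (hp : D.Crosses s(a, b) s(c, d)) (hq : D.Crosses s(a, c) s(b, d)) : False := by
  have nab : a ≠ b := hab.ne
  have ncd : c ≠ d := hcd.ne
  have nac : a ≠ c := hac.ne
  have nbd : b ≠ d := hbd.ne
  obtain ⟨p, hp1, hp2, hp3⟩ := hp
  obtain ⟨q, hq1, hq2, hq3⟩ := hq
  -- edges
  have Eab : s(a, b) ∈ K.edgeSet := hab
  have Ecd : s(c, d) ∈ K.edgeSet := hcd
  have Eac : s(a, c) ∈ K.edgeSet := hac
  have Ebd : s(b, d) ∈ K.edgeSet := hbd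
  have e1 : s(a, b) ≠ s(c, d) := by
    intro h
    rw [Sym2.eq_iff] at h
    rcases h with h | h
    · exact nac h.1
    · exact had h.1
  have e2 : s(a, c) ≠ s(b, d) := by
    intro h
    rw [Sym2.eq_iff] at h
    rcases h with h | h
    · exact nab h.1
    · exact had h.1
  have e3 : s(a, b) ≠ s(b, d) := by
    intro h
    rw [Sym2.eq_iff] at h
    rcases h with h | h
    · exact nab h.1
    · exact had h.1
  have e4 : s(c, d) ≠ s(b, d) := by
    intro h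
    rw [Sym2.eq_iff] at h
    rcases h with h | h
    · exact hbc h.1.symm
    · exact ncd h.1
  have e5 : s(a, c) ≠ s(a, b) := by
    intro h
    rw [Sym2.eq_iff] at h
    rcases h with h | h
    · exact hbc h.2.symm
    · exact nab h.1
  have e6 : s(a, c) ≠ s(c, d) := by
    intro h
    rw [Sym2.eq_iff] at h
    rcases h with h | h
    · exact nac h.1
    · exact had h.1
  obtain ⟨fab, cab, ab0, ab1, iab, mab, sab⟩ := param (D.arc_curve a b hab)
  obtain ⟨fcd, ccd, cd0, cd1, icd, mcd, scd⟩ := param (D.arc_curve c d hcd)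
  obtain ⟨fac, cac, ac0, ac1, iac, mac, sac⟩ := param (D.arc_curve a c hac)
  obtain ⟨fbd, cbd, bd0, bd1, ibd, mbd, sbd⟩ := param (D.arc_curve b d hbd)
  obtain ⟨σ, hσ, hσp⟩ := sab p hp1
  obtain ⟨τ, hτ, hτp⟩ := scd p hp2
  obtain ⟨μ, hμ, hμq⟩ := sac q hq1
  obtain ⟨ν, hν, hνq⟩ := sbd q hq2
  have z0 : (0 : ℝ) ∈ Icc (0 : ℝ) 1 := ⟨le_refl _, zero_le_one⟩
  have z1 : (1 : ℝ) ∈ Icc (0 : ℝ) 1 := ⟨zero_le_one, le_refl _⟩
  -- strict inequalities
  have strict : ∀ (f : ℝ → ℝ × ℝ) (u v : V) (r : ℝ) (z : ℝ × ℝ), f 0 = D.pos u → f 1 = D.pos v →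
      r ∈ Icc (0 : ℝ) 1 → f r = z → z ∉ Set.range D.pos → 0 < r ∧ r < 1 := by
    intro f u v r z h0 h1 hr hz hzr
    constructor
    · rcases lt_or_eq_of_le hr.1 with h | h
      · exact h
      · exact absurd ⟨u, by rw [← hz, ← h, h0]⟩ hzr
    · rcases lt_or_eq_of_le hr.2 with h | h
      · exact h
      · exact absurd ⟨v, by rw [← hz, h, h1]⟩ hzr
  obtain ⟨σ0, σ1⟩ := strict fab a b σ p ab0 ab1 hσ hσp hp3
  obtain ⟨τ0, τ1⟩ := strict fcd c d τ p cd0 cd1 hτ hτp hp3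
  obtain ⟨μ0, μ1⟩ := strict fac a c μ q ac0 ac1 hμ hμq hq3
  obtain ⟨ν0, ν1⟩ := strict fbd b d ν q bd0 bd1 hν hνq hq3
  -- end points on arcs
  have pa_ab : D.pos a ∈ D.arc s(a, b) := ab0 ▸ mab 0 z0
  have pb_ab : D.pos b ∈ D.arc s(a, b) := ab1 ▸ mab 1 z1
  have pc_cd : D.pos c ∈ D.arc s(c, d) := cd0 ▸ mcd 0 z0
  have pd_cd : D.pos d ∈ D.arc s(c, d) := cd1 ▸ mcd 1 z1
  have pa_ac : D.pos a ∈ D.arc s(a, c) := ac0 ▸ mac 0 z0
  have pc_ac : D.pos c ∈ D.arc s(a, c) := ac1 ▸ mac 1 z1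
  have pb_bd : D.pos b ∈ D.arc s(b, d) := bd0 ▸ mbd 0 z0
  have pd_bd : D.pos d ∈ D.arc s(b, d) := bd1 ▸ mbd 1 z1
  -- common points of two arcs
  have I_ab_cd : ∀ z, z ∈ D.arc s(a, b) → z ∈ D.arc s(c, d) → z = p := fun z h1 h2 =>
    D.arc_inter _ Eab _ Ecd e1 ⟨h1, h2⟩ ⟨hp1, hp2⟩
  have I_ac_bd : ∀ z, z ∈ D.arc s(a, c) → z ∈ D.arc s(b, d) → z = q := fun z h1 h2 =>
    D.arc_inter _ Eac _ Ebd e2 ⟨h1, h2⟩ ⟨hq1, hq2⟩
  have I_ab_bd : ∀ z, z ∈ D.arc s(a, b) → z ∈ D.arc s(b, d) → z = D.pos b := fun z h1 h2 =>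
    D.arc_inter _ Eab _ Ebd e3 ⟨h1, h2⟩ ⟨pb_ab, pb_bd⟩
  have I_cd_bd : ∀ z, z ∈ D.arc s(c, d) → z ∈ D.arc s(b, d) → z = D.pos d := fun z h1 h2 =>
    D.arc_inter _ Ecd _ Ebd e4 ⟨h1, h2⟩ ⟨pd_cd, pd_bd⟩
  have I_ac_ab : ∀ z, z ∈ D.arc s(a, c) → z ∈ D.arc s(a, b) → z = D.pos a := fun z h1 h2 =>
    D.arc_inter _ Eac _ Eab e5 ⟨h1, h2⟩ ⟨pa_ac, pa_ab⟩
  have I_ac_cd : ∀ z, z ∈ D.arc s(a, c) → z ∈ D.arc s(c, d) → z = D.pos c := fun z h1 h2 =>
    D.arc_inter _ Eac _ Ecd e6 ⟨h1, h2⟩ ⟨pc_ac, pc_cd⟩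
  -- the pieces
  set A1 : ℝ → ℝ × ℝ := fun s => fab (σ * s) with hA1
  set A2 : ℝ → ℝ × ℝ := fun s => fcd (τ * (1 - s)) with hA2
  set A3 : ℝ → ℝ × ℝ := fun s => fac (1 - s) with hA3
  set B1 : ℝ → ℝ × ℝ := fun t => fab (1 - (1 - σ) * t) with hB1
  set B2 : ℝ → ℝ × ℝ := fun t => fcd (τ + (1 - τ) * t) with hB2
  set B3 : ℝ → ℝ × ℝ := fun t => fbd (1 - t) with hB3
  have jA12 : A1 1 = A2 0 := by simp only [hA1, hA2]; rw [mul_one, sub_zero, mul_one, hσp, hτp]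
  have jA23 : A2 1 = A3 0 := by
    simp only [hA2, hA3]
    rw [sub_self, mul_zero, sub_zero, cd0, ac1]
  have jA31 : A3 1 = A1 0 := by
    simp only [hA3, hA1]
    rw [sub_self, mul_zero, ac0, ab0]
  have jB12 : B1 1 = B2 0 := by
    simp only [hB1, hB2]
    rw [mul_one, mul_zero, add_zero, sub_sub_cancel, hσp, hτp]
  have jB23 : B2 1 = B3 0 := by
    simp only [hB2, hB3]
    rw [mul_one, add_sub_cancel, sub_zero, cd1, bd1]
  have jB31 : B3 1 = B1 0 := by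
    simp only [hB3, hB1]
    rw [sub_self, mul_zero, sub_zero, bd0, ab1]
  -- arguments in [0,1]
  have rA1 : ∀ s ∈ Icc (0 : ℝ) 1, σ * s ∈ Icc (0 : ℝ) 1 := fun s hs =>
    ⟨mul_nonneg σ0.le hs.1, mul_le_one₀ σ1.le hs.1 hs.2⟩
  have rA2 : ∀ s ∈ Icc (0 : ℝ) 1, τ * (1 - s) ∈ Icc (0 : ℝ) 1 := fun s hs =>
    ⟨mul_nonneg τ0.le (by linarith [hs.2]), mul_le_one₀ τ1.le (by linarith [hs.2]) (by linarith [hs.1])⟩
  have rA3 : ∀ s ∈ Icc (0 : ℝ) 1, 1 - s ∈ Icc (0 : ℝ) 1 := fun s hs =>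
    ⟨by linarith [hs.2], by linarith [hs.1]⟩
  have rB1 : ∀ s ∈ Icc (0 : ℝ) 1, σ ≤ 1 - (1 - σ) * s ∧ 1 - (1 - σ) * s ≤ 1 := fun s hs =>
    ⟨by nlinarith [hs.2], by nlinarith [hs.1]⟩
  have rB2 : ∀ s ∈ Icc (0 : ℝ) 1, τ ≤ τ + (1 - τ) * s ∧ τ + (1 - τ) * s ≤ 1 := fun s hs =>
    ⟨by nlinarith [hs.1], by nlinarith [hs.2]⟩
  have rB1' : ∀ s ∈ Icc (0 : ℝ) 1, 1 - (1 - σ) * s ∈ Icc (0 : ℝ) 1 := fun s hs =>
    ⟨by linarith [(rB1 s hs).1], (rB1 s hs).2⟩
  have rB2' : ∀ s ∈ Icc (0 : ℝ) 1, τ + (1 - τ) * s ∈ Icc (0 : ℝ) 1 := fun s hs =>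
    ⟨by linarith [(rB2 s hs).1], (rB2 s hs).2⟩
  -- solutions for p
  have uA1 : ∀ s ∈ Icc (0 : ℝ) 1, A1 s = p → s = 1 := by
    intro s hs h
    have h1 : σ * s = σ := iab (rA1 s hs) hσ (by rw [hσp]; exact h)
    have h2 : σ * (s - 1) = 0 := by linear_combination h1
    rcases mul_eq_zero.mp h2 with h3 | h3
    · linarith
    · linarith
  have uA2 : ∀ s ∈ Icc (0 : ℝ) 1, A2 s = p → s = 0 := by
    intro s hs h
    have h1 : τ * (1 - s) = τ := icd (rA2 s hs) hτ (by rw [hτp]; exact h)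
    have h2 : τ * s = 0 := by linear_combination -h1
    rcases mul_eq_zero.mp h2 with h3 | h3
    · linarith
    · exact h3
  have uB1 : ∀ s ∈ Icc (0 : ℝ) 1, B1 s = p → s = 1 := by
    intro s hs h
    have h1 : 1 - (1 - σ) * s = σ := iab (rB1' s hs) hσ (by rw [hσp]; exact h)
    have h2 : (1 - σ) * (s - 1) = 0 := by linear_combination -h1
    rcases mul_eq_zero.mp h2 with h3 | h3
    · linarith
    · linarith
  have uB2 : ∀ s ∈ Icc (0 : ℝ) 1, B2 s = p → s = 0 := by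
    intro s hs h
    have h1 : τ + (1 - τ) * s = τ := icd (rB2' s hs) hτ (by rw [hτp]; exact h)
    have h2 : (1 - τ) * s = 0 := by linear_combination h1
    rcases mul_eq_zero.mp h2 with h3 | h3
    · linarith
    · exact h3
  -- the pieces are in the arcs
  have mA1 : ∀ s ∈ Icc (0 : ℝ) 1, A1 s ∈ D.arc s(a, b) := fun s hs => mab _ (rA1 s hs)
  have mA2 : ∀ s ∈ Icc (0 : ℝ) 1, A2 s ∈ D.arc s(c, d) := fun s hs => mcd _ (rA2 s hs)
  have mA3 : ∀ s ∈ Icc (0 : ℝ) 1, A3 s ∈ D.arc s(a, c) := fun s hs => mac _ (rA3 s hs)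
  have mB1 : ∀ s ∈ Icc (0 : ℝ) 1, B1 s ∈ D.arc s(a, b) := fun s hs => mab _ (rB1' s hs)
  have mB2 : ∀ s ∈ Icc (0 : ℝ) 1, B2 s ∈ D.arc s(c, d) := fun s hs => mcd _ (rB2' s hs)
  have mB3 : ∀ s ∈ Icc (0 : ℝ) 1, B3 s ∈ D.arc s(b, d) := fun s hs => mbd _ (rA3 s hs)
  -- values of the closed curves
  have vA1 : ∀ s, s ≤ 1 → tri A1 A2 A3 s = A1 s := fun s hs => tri_1 hs
  have vA2 : ∀ s, 1 ≤ s → s ≤ 2 → tri A1 A2 A3 s = A2 (s - 1) := fun s h h' => tri_2 jA12 h h'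
  have vA3 : ∀ s, 2 ≤ s → tri A1 A2 A3 s = A3 (s - 2) := fun s h => tri_3 jA23 h
  have vB1 : ∀ s, s ≤ 1 → tri B1 B2 B3 s = B1 s := fun s hs => tri_1 hs
  have vB2 : ∀ s, 1 ≤ s → s ≤ 2 → tri B1 B2 B3 s = B2 (s - 1) := fun s h h' => tri_2 jB12 h h'
  have vB3 : ∀ s, 2 ≤ s → tri B1 B2 B3 s = B3 (s - 2) := fun s h => tri_3 jB23 h
  have contA : Continuous (tri A1 A2 A3) :=
    tri_cont (cab.comp (by fun_prop)) (ccd.comp (by fun_prop)) (cac.comp (by fun_prop)) jA12 jA23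
  have contB : Continuous (tri B1 B2 B3) :=
    tri_cont (cab.comp (by fun_prop)) (ccd.comp (by fun_prop)) (cbd.comp (by fun_prop)) jB12 jB23
  -- zeros
  have zeros : ∀ s ∈ Icc (0 : ℝ) 3, ∀ t ∈ Icc (0 : ℝ) 3, tri A1 A2 A3 s = tri B1 B2 B3 t →
      (s = 1 ∧ t = 1) ∨ (s = 3 - μ ∧ t = 3 - ν) := by
    intro s hs t ht h
    rcases le_total s 1 with hs1 | hs1
    · have ms : s ∈ Icc (0 : ℝ) 1 := ⟨hs.1, hs1⟩
      rw [vA1 s hs1] at h
      rcases le_total t 1 with ht1 | ht1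
      · have mt : t ∈ Icc (0 : ℝ) 1 := ⟨ht.1, ht1⟩
        rw [vB1 t ht1] at h
        have h1 : σ * s = 1 - (1 - σ) * t := iab (rA1 s ms) (rB1' t mt) h
        have h2 := (rB1 t mt).1
        have h3 : σ * s ≤ σ := by nlinarith
        have h4 : A1 s = p := by
          simp only [hA1]
          rw [show σ * s = σ by linarith, hσp]
        left
        exact ⟨uA1 s ms h4, uB1 t mt (by rw [← h]; exact h4)⟩
      · rcases le_total t 2 with ht2 | ht2
        · have mt : t - 1 ∈ Icc (0 : ℝ) 1 := ⟨by linarith, by linarith⟩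
          rw [vB2 t ht1 ht2] at h
          have h4 : A1 s = p := I_ab_cd _ (mA1 s ms) (by rw [h]; exact mB2 _ mt)
          have h5 := uB2 _ mt (by rw [← h]; exact h4)
          left
          exact ⟨uA1 s ms h4, by linarith⟩
        · have mt : t - 2 ∈ Icc (0 : ℝ) 1 := ⟨by linarith, by linarith [ht.2]⟩
          rw [vB3 t ht2] at h
          have h4 : A1 s = D.pos b := I_ab_bd _ (mA1 s ms) (by rw [h]; exact mB3 _ mt)
          have h5 : σ * s = 1 := iab (rA1 s ms) z1 (by rw [ab1]; exact h4)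
          nlinarith [ms.1, ms.2]
    · rcases le_total s 2 with hs2 | hs2
      · have ms : s - 1 ∈ Icc (0 : ℝ) 1 := ⟨by linarith, by linarith⟩
        rw [vA2 s hs1 hs2] at h
        rcases le_total t 1 with ht1 | ht1
        · have mt : t ∈ Icc (0 : ℝ) 1 := ⟨ht.1, ht1⟩
          rw [vB1 t ht1] at h
          have h4 : B1 t = p := I_ab_cd _ (mB1 t mt) (by rw [← h]; exact mA2 _ ms)
          have h5 := uA2 _ ms (by rw [h]; exact h4)
          left
          exact ⟨by linarith, uB1 t mt h4⟩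
        · rcases le_total t 2 with ht2 | ht2
          · have mt : t - 1 ∈ Icc (0 : ℝ) 1 := ⟨by linarith, by linarith⟩
            rw [vB2 t ht1 ht2] at h
            have h1 : τ * (1 - (s - 1)) = τ + (1 - τ) * (t - 1) := icd (rA2 _ ms) (rB2' _ mt) h
            have h2 := (rB2 _ mt).1
            have h3 : τ * (1 - (s - 1)) ≤ τ := by nlinarith [ms.1]
            have h4 : A2 (s - 1) = p := by
              simp only [hA2]
              rw [show τ * (1 - (s - 1)) = τ by linarith, hτp]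
            have h5 := uA2 _ ms h4
            have h6 := uB2 _ mt (by rw [← h]; exact h4)
            left
            exact ⟨by linarith, by linarith⟩
          · have mt : t - 2 ∈ Icc (0 : ℝ) 1 := ⟨by linarith, by linarith [ht.2]⟩
            rw [vB3 t ht2] at h
            have h4 : A2 (s - 1) = D.pos d := I_cd_bd _ (mA2 _ ms) (by rw [h]; exact mB3 _ mt)
            have h5 : τ * (1 - (s - 1)) = 1 := icd (rA2 _ ms) z1 (by rw [cd1]; exact h4)
            nlinarith [ms.1, ms.2]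
      · have ms : s - 2 ∈ Icc (0 : ℝ) 1 := ⟨by linarith, by linarith [hs.2]⟩
        rw [vA3 s hs2] at h
        rcases le_total t 1 with ht1 | ht1
        · have mt : t ∈ Icc (0 : ℝ) 1 := ⟨ht.1, ht1⟩
          rw [vB1 t ht1] at h
          have h4 : B1 t = D.pos a := I_ac_ab _ (by rw [← h]; exact mA3 _ ms) (mB1 t mt)
          have h5 : 1 - (1 - σ) * t = 0 := iab (rB1' t mt) z0 (by rw [ab0]; exact h4)
          linarith [(rB1 t mt).1]
        · rcases le_total t 2 with ht2 | ht2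
          · have mt : t - 1 ∈ Icc (0 : ℝ) 1 := ⟨by linarith, by linarith⟩
            rw [vB2 t ht1 ht2] at h
            have h4 : B2 (t - 1) = D.pos c := I_ac_cd _ (by rw [← h]; exact mA3 _ ms) (mB2 _ mt)
            have h5 : τ + (1 - τ) * (t - 1) = 0 := icd (rB2' _ mt) z0 (by rw [cd0]; exact h4)
            linarith [(rB2 _ mt).1]
          · have mt : t - 2 ∈ Icc (0 : ℝ) 1 := ⟨by linarith, by linarith [ht.2]⟩
            rw [vB3 t ht2] at h
            have h4 : A3 (s - 2) = q := I_ac_bd _ (mA3 _ ms) (by rw [h]; exact mB3 _ mt)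
            have h5 : 1 - (s - 2) = μ := iac (rA3 _ ms) hμ (by rw [hμq]; exact h4)
            have h6 : 1 - (t - 2) = ν := ibd (rA3 _ mt) hν (by rw [hνq, ← h4, h])
            right
            exact ⟨by linarith, by linarith⟩
  -- the touching corner
  have injA : InjOn (tri A1 A2 A3) (Icc (1 - 1 / 2) (1 + 1 / 2)) := by
    have key : ∀ s ∈ Icc (1 - 1 / 2 : ℝ) 1, ∀ s' ∈ Icc (1 : ℝ) (1 + 1 / 2),
        tri A1 A2 A3 s = tri A1 A2 A3 s' → s = s' := by
      intro s hs s' hs' h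
      have ms : s ∈ Icc (0 : ℝ) 1 := ⟨by linarith [hs.1], hs.2⟩
      have ms' : s' - 1 ∈ Icc (0 : ℝ) 1 := ⟨by linarith [hs'.1], by linarith [hs'.2]⟩
      rw [vA1 s hs.2, vA2 s' hs'.1 (by linarith [hs'.2])] at h
      have h4 : A1 s = p := I_ab_cd _ (mA1 s ms) (by rw [h]; exact mA2 _ ms')
      have h5 := uA1 s ms h4
      have h6 := uA2 _ ms' (by rw [← h]; exact h4)
      linarith
    intro s hs s' hs' h
    rcases le_total s 1 with h1 | h1
    · rcases le_total s' 1 with h2 | h2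
      · rw [vA1 s h1, vA1 s' h2] at h
        have h3 : σ * s = σ * s' := iab (rA1 s ⟨by linarith [hs.1], h1⟩)
          (rA1 s' ⟨by linarith [hs'.1], h2⟩) h
        exact mul_left_cancel₀ (ne_of_gt σ0) h3
      · exact key s ⟨hs.1, h1⟩ s' ⟨h2, hs'.2⟩ h
    · rcases le_total s' 1 with h2 | h2
      · exact (key s' ⟨hs'.1, h2⟩ s ⟨h1, hs.2⟩ h.symm).symm
      · rw [vA2 s h1 (by linarith [hs.2]), vA2 s' h2 (by linarith [hs'.2])] at h
        have h3 : τ * (1 - (s - 1)) = τ * (1 - (s' - 1)) := icd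
          (rA2 _ ⟨by linarith, by linarith [hs.2]⟩) (rA2 _ ⟨by linarith, by linarith [hs'.2]⟩) h
        have h4 := mul_left_cancel₀ (ne_of_gt τ0) h3
        linarith
  have injB : InjOn (tri B1 B2 B3) (Icc (1 - 1 / 2) (1 + 1 / 2)) := by
    have key : ∀ s ∈ Icc (1 - 1 / 2 : ℝ) 1, ∀ s' ∈ Icc (1 : ℝ) (1 + 1 / 2),
        tri B1 B2 B3 s = tri B1 B2 B3 s' → s = s' := by
      intro s hs s' hs' h
      have ms : s ∈ Icc (0 : ℝ) 1 := ⟨by linarith [hs.1], hs.2⟩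
      have ms' : s' - 1 ∈ Icc (0 : ℝ) 1 := ⟨by linarith [hs'.1], by linarith [hs'.2]⟩
      rw [vB1 s hs.2, vB2 s' hs'.1 (by linarith [hs'.2])] at h
      have h4 : B1 s = p := I_ab_cd _ (mB1 s ms) (by rw [h]; exact mB2 _ ms')
      have h5 := uB1 s ms h4
      have h6 := uB2 _ ms' (by rw [← h]; exact h4)
      linarith
    intro s hs s' hs' h
    rcases le_total s 1 with h1 | h1
    · rcases le_total s' 1 with h2 | h2
      · rw [vB1 s h1, vB1 s' h2] at h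
        have h3 : 1 - (1 - σ) * s = 1 - (1 - σ) * s' := iab (rB1' s ⟨by linarith [hs.1], h1⟩)
          (rB1' s' ⟨by linarith [hs'.1], h2⟩) h
        have h4 : (1 - σ) * s = (1 - σ) * s' := by linarith
        exact mul_left_cancel₀ (ne_of_gt (by linarith)) h4
      · exact key s ⟨hs.1, h1⟩ s' ⟨h2, hs'.2⟩ h
    · rcases le_total s' 1 with h2 | h2
      · exact (key s' ⟨hs'.1, h2⟩ s ⟨h1, hs.2⟩ h.symm).symm
      · rw [vB2 s h1 (by linarith [hs.2]), vB2 s' h2 (by linarith [hs'.2])] at h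
        have h3 : τ + (1 - τ) * (s - 1) = τ + (1 - τ) * (s' - 1) := icd
          (rB2' _ ⟨by linarith, by linarith [hs.2]⟩) (rB2' _ ⟨by linarith, by linarith [hs'.2]⟩) h
        have h4 : (1 - τ) * (s - 1) = (1 - τ) * (s' - 1) := by linarith
        have h5 := mul_left_cancel₀ (ne_of_gt (by linarith)) h4
        linarith
  have Z1 : ZLoc (tri A1 A2 A3) (tri B1 B2 B3) 1 1 0 := by
    refine hLC2 (D.arc s(a, b)) (D.arc s(c, d)) p (D.arc_proper _ Eab _ Ecd e1 p hp1 hp2 hp3)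
      _ _ 1 1 (1 / 2) (by norm_num) contA.continuousOn contB.continuousOn injA injB
      (Or.inl ⟨?_, ?_⟩) (Or.inl ⟨?_, ?_⟩) ?_ ?_ ?_
    · intro s hs
      rw [vA1 s hs.2]
      exact mA1 s ⟨by linarith [hs.1], hs.2⟩
    · intro s hs
      rw [vA2 s hs.1 (by linarith [hs.2])]
      exact mA2 _ ⟨by linarith [hs.1], by linarith [hs.2]⟩
    · intro s hs
      rw [vB1 s hs.2]
      exact mB1 s ⟨by linarith [hs.1], hs.2⟩
    · intro s hs
      rw [vB2 s hs.1 (by linarith [hs.2])]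
      exact mB2 _ ⟨by linarith [hs.1], by linarith [hs.2]⟩
    · rw [vA1 1 (le_refl _)]
      simp only [hA1]
      rw [mul_one, hσp]
    · rw [vB1 1 (le_refl _)]
      simp only [hB1]
      rw [mul_one, sub_sub_cancel, hσp]
    · intro s hs t ht h
      rcases zeros s ⟨by linarith [hs.1], by linarith [hs.2]⟩ t
        ⟨by linarith [ht.1], by linarith [ht.2]⟩ h with h1 | h1
      · exact h1
      · have := hs.2
        have h2 := h1.1
        exfalso
        linarith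
  -- the crossing q
  obtain ⟨h, hh0, h1, h2, h3, h4⟩ : ∃ h : ℝ, 0 < h ∧ h ≤ μ ∧ h ≤ 1 - μ ∧ h ≤ ν ∧ h ≤ 1 - ν :=
    ⟨min (min μ (1 - μ)) (min ν (1 - ν)), by
      refine lt_min (lt_min μ0 (by linarith)) (lt_min ν0 (by linarith)),
      (min_le_left _ _).trans (min_le_left _ _), (min_le_left _ _).trans (min_le_right _ _),
      (min_le_right _ _).trans (min_le_left _ _), (min_le_right _ _).trans (min_le_right _ _)⟩
  have Z2 : ZLoc (tri A1 A2 A3) (tri B1 B2 B3) (3 - μ) (3 - ν) 1 := by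
    refine hLC1 (D.arc s(a, c)) (D.arc s(b, d)) q (D.arc_proper _ Eac _ Ebd e2 q hq1 hq2 hq3)
      _ _ (3 - μ) (3 - ν) h hh0 contA.continuousOn contB.continuousOn ?_ ?_ ?_ ?_ ?_ ?_
    · intro s hs s' hs' heq
      rw [vA3 s (by linarith [hs.1]), vA3 s' (by linarith [hs'.1])] at heq
      have h5 : 1 - (s - 2) = 1 - (s' - 2) := iac
        (rA3 _ ⟨by linarith [hs.1], by linarith [hs.2]⟩)
        (rA3 _ ⟨by linarith [hs'.1], by linarith [hs'.2]⟩) heq
      linarith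
    · intro s hs s' hs' heq
      rw [vB3 s (by linarith [hs.1]), vB3 s' (by linarith [hs'.1])] at heq
      have h5 : 1 - (s - 2) = 1 - (s' - 2) := ibd
        (rA3 _ ⟨by linarith [hs.1], by linarith [hs.2]⟩)
        (rA3 _ ⟨by linarith [hs'.1], by linarith [hs'.2]⟩) heq
      linarith
    · intro s hs
      rw [vA3 s (by linarith [hs.1])]
      exact mA3 _ ⟨by linarith [hs.1], by linarith [hs.2]⟩
    · intro s hs
      rw [vB3 s (by linarith [hs.1])]
      exact mB3 _ ⟨by linarith [hs.1], by linarith [hs.2]⟩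
    · rw [vA3 _ (by linarith)]
      simp only [hA3]
      rw [show 1 - (3 - μ - 2) = μ by ring, hμq]
    · rw [vB3 _ (by linarith)]
      simp only [hB3]
      rw [show 1 - (3 - ν - 2) = ν by ring, hνq]
  -- the sum
  have hne : ((1 : ℝ), (1 : ℝ)) ≠ (3 - μ, 3 - ν) := by
    intro h
    have := congrArg Prod.fst h
    simp only at this
    linarith
  classical
  have hfin := hPAR (tri A1 A2 A3) (tri B1 B2 B3) 3 3 {((1 : ℝ), (1 : ℝ)), (3 - μ, 3 - ν)}
    (fun z => if z = (1, 1) then 0 else 1) (by norm_num) (by norm_num) contA.continuousOn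
    contB.continuousOn
    (by rw [vA1 0 (by norm_num), vA3 3 (by norm_num), ← jA31]; norm_num)
    (by rw [vB1 0 (by norm_num), vB3 3 (by norm_num), ← jB31]; norm_num)
    (by
      intro s hs t ht h
      rcases zeros s hs t ht h with h1 | h1
      · rw [h1.1, h1.2]
        simp
      · rw [h1.1, h1.2]
        simp)
    (by
      intro z hz
      rw [Finset.mem_insert, Finset.mem_singleton] at hz
      rcases hz with hz | hz
      · rw [hz, if_pos rfl]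
        exact ⟨⟨by norm_num, by norm_num⟩, ⟨by norm_num, by norm_num⟩, Z1⟩
      · rw [hz, if_neg (Ne.symm hne)]
        exact ⟨⟨by simp only; linarith, by simp only; linarith⟩,
          ⟨by simp only; linarith, by simp only; linarith⟩, Z2⟩)
  rw [Finset.sum_pair hne, if_pos rfl, if_neg (Ne.symm hne)] at hfin
  exact absurd hfin (by decide)

end Pool.MXT
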