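import Pool.Agent.H76.MXT.Stmts

/-! Row HM1 of board mxt: local form of a proper crossing. -/

set_option autoImplicit false

namespace Pool.MXT

open Set

namespace HM1

theorem nzb_of (F : ℝ → ℝ → ℂ) (s₀ t₀ δ : ℝ) (hδ : 0 < δ)
    (h : ∀ s ∈ Icc (s₀ - δ) (s₀ + δ), ∀ t ∈ Icc (t₀ - δ) (t₀ + δ), (s ≠ s₀ ∨ t ≠ t₀) → F s t ≠ 0) :
    NZB F (s₀ - δ) (s₀ + δ) (t₀ - δ) (t₀ + δ) := by
  have h1 : s₀ - δ ∈ Icc (s₀ - δ) (s₀ + δ) := ⟨le_refl _, by linarith⟩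
  have h2 : s₀ + δ ∈ Icc (s₀ - δ) (s₀ + δ) := ⟨by linarith, le_refl _⟩
  have h3 : t₀ - δ ∈ Icc (t₀ - δ) (t₀ + δ) := ⟨le_refl _, by linarith⟩
  have h4 : t₀ + δ ∈ Icc (t₀ - δ) (t₀ + δ) := ⟨by linarith, le_refl _⟩
  refine ⟨fun x hx => ⟨h x hx _ h3 (Or.inr (by linarith)), h x hx _ h4 (Or.inr (by linarith))⟩,
    fun y hy => ⟨h _ h1 y hy (Or.inl (by linarith)), h _ h2 y hy (Or.inl (by linarith))⟩⟩

theorem sub_ne (Ψ : ℝ × ℝ → ℂ) (hinj : Function.Injective Ψ) (p q : ℝ × ℝ) (h : p ≠ q) :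
    Ψ p - Ψ q ≠ 0 := by
  intro h0
  exact h (hinj (sub_eq_zero.mp h0))

end HM1

theorem hm1_thm (hHOM : S_HOM) (hODD : S_ODD) : S_HM1 := by
  intro Ψ a b s₀ t₀ δ σ τ hΨ hinj hδ hσ hτ ha hb hsa hsb
  have hab : s₀ - δ ≤ s₀ + δ := by linarith
  have hcd : t₀ - δ ≤ t₀ + δ := by linarith
  have hσ2 : σ * σ = 1 := by rcases hσ with h | h <;> rw [h] <;> norm_num
  have hτ2 : τ * τ = 1 := by rcases hτ with h | h <;> rw [h] <;> norm_num
  have ca : ContinuousOn (fun p : ℝ × ℝ × ℝ => a p.2.1)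
      (Icc 0 1 ×ˢ (Icc (s₀ - δ) (s₀ + δ) ×ˢ Icc (t₀ - δ) (t₀ + δ))) :=
    ha.comp (by fun_prop) (fun p hp => hp.2.1)
  have cb : ContinuousOn (fun p : ℝ × ℝ × ℝ => b p.2.2)
      (Icc 0 1 ×ˢ (Icc (s₀ - δ) (s₀ + δ) ×ˢ Icc (t₀ - δ) (t₀ + δ))) :=
    hb.comp (by fun_prop) (fun p hp => hp.2.2)
  have cr : ContinuousOn (fun p : ℝ × ℝ × ℝ => p.1)
      (Icc 0 1 ×ˢ (Icc (s₀ - δ) (s₀ + δ) ×ˢ Icc (t₀ - δ) (t₀ + δ))) := by fun_prop
  have cs : ContinuousOn (fun p : ℝ × ℝ × ℝ => p.2.1)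
      (Icc 0 1 ×ˢ (Icc (s₀ - δ) (s₀ + δ) ×ˢ Icc (t₀ - δ) (t₀ + δ))) := by fun_prop
  have ct : ContinuousOn (fun p : ℝ × ℝ × ℝ => p.2.2)
      (Icc 0 1 ×ˢ (Icc (s₀ - δ) (s₀ + δ) ×ˢ Icc (t₀ - δ) (t₀ + δ))) := by fun_prop
  have cinv : ContinuousOn (fun p : ℝ × ℝ × ℝ => (1 + p.1)⁻¹)
      (Icc 0 1 ×ˢ (Icc (s₀ - δ) (s₀ + δ) ×ˢ Icc (t₀ - δ) (t₀ + δ))) := by
    apply ContinuousOn.inv₀ (f := fun p : ℝ × ℝ × ℝ => 1 + p.1) (continuousOn_const.add cr)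
    intro p hp
    have h9 : (0 : ℝ) ≤ p.1 := hp.1.1
    exact ne_of_gt (by linarith)
  -- first homotopy
  have e1 := hHOM (fun r s t => Ψ (a s, -(r * b t)) - Ψ (0, (1 - r) * b t)) _ _ _ _ hab hcd
    ((hΨ.comp_continuousOn (ca.prodMk (cr.mul cb).neg)).sub
      (hΨ.comp_continuousOn (continuousOn_const.prodMk ((continuousOn_const.sub cr).mul cb))))
    (by
      intro r hr
      apply HM1.nzb_of _ _ _ _ hδ
      intro s hs t ht hst
      apply HM1.sub_ne Ψ hinj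
      intro heq
      rw [Prod.mk.injEq] at heq
      obtain ⟨h1, h2⟩ := heq
      have h3 : b t = 0 := by linear_combination -h2
      rcases hst with h | h
      · exact h ((hsa s hs).2 h1)
      · exact h ((hsb t ht).2 h3))
  -- second homotopy
  have e2 := hHOM (fun r s t => Ψ ((1 + r)⁻¹ * a s, -((1 + r)⁻¹ * b t)) -
      Ψ (-(r * ((1 + r)⁻¹ * a s)), r * ((1 + r)⁻¹ * b t))) _ _ _ _ hab hcd
    ((hΨ.comp_continuousOn ((cinv.mul ca).prodMk (cinv.mul cb).neg)).sub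
      (hΨ.comp_continuousOn ((cr.mul (cinv.mul ca)).neg.prodMk (cr.mul (cinv.mul cb)))))
    (by
      intro r hr
      apply HM1.nzb_of _ _ _ _ hδ
      intro s hs t ht hst
      apply HM1.sub_ne Ψ hinj
      intro heq
      rw [Prod.mk.injEq] at heq
      obtain ⟨h1, h2⟩ := heq
      have hr1 : (1 + r) ≠ 0 := by
        have := hr.1
        exact ne_of_gt (by linarith)
      have hinv : (1 + r) * (1 + r)⁻¹ = 1 := mul_inv_cancel₀ hr1
      have h3 : a s = 0 := by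
        have : (1 + r) * (1 + r)⁻¹ * a s = 0 := by linear_combination h1
        rwa [hinv, one_mul] at this
      have h4 : b t = 0 := by
        have : (1 + r) * (1 + r)⁻¹ * b t = 0 := by linear_combination -h2
        rwa [hinv, one_mul] at this
      rcases hst with h | h
      · exact h ((hsa s hs).2 h3)
      · exact h ((hsb t ht).2 h4))
  -- third homotopy
  have cV1 : ContinuousOn (fun p : ℝ × ℝ × ℝ => ((1 - p.1) * a p.2.1 + p.1 * (σ * (p.2.1 - s₀))) / 2)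
      (Icc 0 1 ×ˢ (Icc (s₀ - δ) (s₀ + δ) ×ˢ Icc (t₀ - δ) (t₀ + δ))) :=
    (((continuousOn_const.sub cr).mul ca).add
      (cr.mul (continuousOn_const.mul (cs.sub continuousOn_const)))).div_const 2
  have cV2 : ContinuousOn (fun p : ℝ × ℝ × ℝ => ((1 - p.1) * b p.2.2 + p.1 * (τ * (p.2.2 - t₀))) / 2)
      (Icc 0 1 ×ˢ (Icc (s₀ - δ) (s₀ + δ) ×ˢ Icc (t₀ - δ) (t₀ + δ))) :=
    (((continuousOn_const.sub cr).mul cb).add
      (cr.mul (continuousOn_const.mul (ct.sub continuousOn_const)))).div_const 2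
  have e3 := hHOM (fun r s t =>
      Ψ (((1 - r) * a s + r * (σ * (s - s₀))) / 2, -(((1 - r) * b t + r * (τ * (t - t₀))) / 2)) -
      Ψ (-(((1 - r) * a s + r * (σ * (s - s₀))) / 2), ((1 - r) * b t + r * (τ * (t - t₀))) / 2))
      _ _ _ _ hab hcd
    ((hΨ.comp_continuousOn (cV1.prodMk cV2.neg)).sub (hΨ.comp_continuousOn (cV1.neg.prodMk cV2)))
    (by
      intro r hr
      apply HM1.nzb_of _ _ _ _ hδ
      intro s hs t ht hst
      apply HM1.sub_ne Ψ hinj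
      intro heq
      rw [Prod.mk.injEq] at heq
      obtain ⟨h1, h2⟩ := heq
      have h3 : (1 - r) * a s + r * (σ * (s - s₀)) = 0 := by linear_combination h1
      have h4 : (1 - r) * b t + r * (τ * (t - t₀)) = 0 := by linear_combination -h2
      have key : ∀ (c κ x x₀ : ℝ), κ * κ = 1 → 0 ≤ κ * c * (x - x₀) → (c = 0 → x = x₀) →
          (1 - r) * c + r * (κ * (x - x₀)) = 0 → x = x₀ := by
        intro c κ x x₀ hκ hc1 hc2 h5
        have h6 : (1 - r) * (κ * c * (x - x₀)) + r * (x - x₀) ^ 2 = 0 := by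
          have : (1 - r) * (κ * c * (x - x₀)) + r * (x - x₀) ^ 2 =
              κ * (x - x₀) * ((1 - r) * c + r * (κ * (x - x₀))) +
                r * (x - x₀) ^ 2 * (1 - κ * κ) := by ring
          rw [this, h5, hκ]
          ring
        have h7 : 0 ≤ (1 - r) * (κ * c * (x - x₀)) :=
          mul_nonneg (by linarith [hr.2]) hc1
        have h8 : 0 ≤ r * (x - x₀) ^ 2 := mul_nonneg hr.1 (sq_nonneg _)
        have h9 : r * (x - x₀) ^ 2 = 0 := by linarith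
        rcases mul_eq_zero.mp h9 with h | h
        · rw [h] at h5
          exact hc2 (by linarith)
        · have := pow_eq_zero_iff (two_ne_zero) |>.mp h
          linarith
      rcases hst with h | h
      · exact h (key (a s) σ s s₀ hσ2 (hsa s hs).1 (hsa s hs).2 h3)
      · exact h (key (b t) τ t t₀ hτ2 (hsb t ht).1 (hsb t ht).2 h4))
  have f0 : (fun s t => Ψ (a s, 0) - Ψ (0, b t)) =
      (fun (s t : ℝ) => Ψ (a s, -((0 : ℝ) * b t)) - Ψ (0, (1 - (0 : ℝ)) * b t)) := by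
    funext s t
    simp
  have f1 : (fun (s t : ℝ) => Ψ (a s, -((1 : ℝ) * b t)) - Ψ (0, (1 - (1 : ℝ)) * b t)) =
      (fun s t => Ψ ((1 + (0 : ℝ))⁻¹ * a s, -((1 + (0 : ℝ))⁻¹ * b t)) -
      Ψ (-((0 : ℝ) * ((1 + (0 : ℝ))⁻¹ * a s)), (0 : ℝ) * ((1 + (0 : ℝ))⁻¹ * b t))) := by
    funext s t
    simp
  have f2 : (fun (s t : ℝ) => Ψ ((1 + (1 : ℝ))⁻¹ * a s, -((1 + (1 : ℝ))⁻¹ * b t)) -
      Ψ (-((1 : ℝ) * ((1 + (1 : ℝ))⁻¹ * a s)), (1 : ℝ) * ((1 + (1 : ℝ))⁻¹ * b t))) =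
      (fun s t =>
      Ψ (((1 - (0 : ℝ)) * a s + (0 : ℝ) * (σ * (s - s₀))) / 2,
        -(((1 - (0 : ℝ)) * b t + (0 : ℝ) * (τ * (t - t₀))) / 2)) -
      Ψ (-(((1 - (0 : ℝ)) * a s + (0 : ℝ) * (σ * (s - s₀))) / 2),
        ((1 - (0 : ℝ)) * b t + (0 : ℝ) * (τ * (t - t₀))) / 2)) := by
    funext s t
    congr 2 <;> · rw [Prod.mk.injEq]; constructor <;> ring
  rw [f0, e1, f1, e2, f2, e3]
  apply hODD _ _ _ _ hδ
  · have c1 : ContinuousOn (fun p : ℝ × ℝ =>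
        Ψ (((1 - (1 : ℝ)) * a p.1 + (1 : ℝ) * (σ * (p.1 - s₀))) / 2,
          -(((1 - (1 : ℝ)) * b p.2 + (1 : ℝ) * (τ * (p.2 - t₀))) / 2)) -
        Ψ (-(((1 - (1 : ℝ)) * a p.1 + (1 : ℝ) * (σ * (p.1 - s₀))) / 2),
          ((1 - (1 : ℝ)) * b p.2 + (1 : ℝ) * (τ * (p.2 - t₀))) / 2))
        (Icc (s₀ - δ) (s₀ + δ) ×ˢ Icc (t₀ - δ) (t₀ + δ)) := by
      simp only [sub_self, zero_mul, zero_add, one_mul]
      apply Continuous.continuousOn
      apply Continuous.sub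
      · exact hΨ.comp (by fun_prop)
      · exact hΨ.comp (by fun_prop)
    exact c1
  · apply HM1.nzb_of _ _ _ _ hδ
    intro s hs t ht hst
    apply HM1.sub_ne Ψ hinj
    intro heq
    rw [Prod.mk.injEq] at heq
    obtain ⟨h1, h2⟩ := heq
    have h3 : s = s₀ := by
      have : σ * σ * (s - s₀) = 0 := by linear_combination σ * h1
      rw [hσ2, one_mul] at this
      linarith
    have h4 : t = t₀ := by
      have : τ * τ * (t - t₀) = 0 := by linear_combination -τ * h2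
      rw [hτ2, one_mul] at this
      linarith
    rcases hst with h | h
    · exact h h3
    · exact h h4
  · intro x _ y _
    have g1 : ((1 - (1 : ℝ)) * a (2 * s₀ - x) + 1 * (σ * (2 * s₀ - x - s₀))) / 2 =
        -(((1 - (1 : ℝ)) * a x + 1 * (σ * (x - s₀))) / 2) := by ring
    have g2 : ((1 - (1 : ℝ)) * b (2 * t₀ - y) + 1 * (τ * (2 * t₀ - y - t₀))) / 2 =
        -(((1 - (1 : ℝ)) * b y + 1 * (τ * (y - t₀))) / 2) := by ring
    simp only [g1, g2, neg_neg]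
    ring

end Pool.MXT
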