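import Pool.Agent.H62.MXT.CUT
import Pool.Agent.H66.MXT.ODD
import Pool.Agent.H60.MXT.TUR
import Pool.Agent.H25.MXT.HM2
import Pool.Agent.H52.MXT.OPP
import Pool.Agent.H84.MXT.HOM
import Pool.Agent.H27.MXT.ISO
import Pool.Agent.H41.MXT.PAR
import Pool.Agent.H76.MXT.HM1
import Pool.Agent.H95.MXT.GLB
import Pool.Agent.H66.MXT.RCT
import Pool.Agent.H66.MXT.SGN
import Pool.Agent.H3.MXT.LC1
import Pool.Agent.H40.MXT.PCS
import Pool.Agent.H17.MXT.LF2
import Pool.Agent.H17.MXT.LFU
import Pool.Agent.H60.MXT.LC2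
import Pool.Agent.H76.MXT.C4

/-! Assembly of the board mxt. -/

set_option autoImplicit false

namespace Pool.MXT

theorem lfu_done : S_LFU := lfu_thm lf2_thm
theorem tur_done : S_TUR := tur_thm lfu_done
theorem rct_done : S_RCT := rct_thm lf2_thm lfu_done
theorem cut_done : S_CUT := cut_thm tur_done
theorem hom_done : S_HOM := hom_thm rct_done
theorem odd_done : S_ODD := odd_thm tur_done
theorem iso_done : S_ISO := iso_thm rct_done cut_done
theorem glb_done : S_GLB := glb_thm iso_done cut_done rct_done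
theorem par_done : S_PAR := par_thm glb_done
theorem hm1_done : S_HM1 := hm1_thm hom_done odd_done
theorem hm2_done : S_HM2 := hm2_thm hom_done rct_done
theorem lc1_done : S_LC1 := lc1_thm hm1_done sgn_thm tur_done
theorem lc2_done : S_LC2 := lc2_thm hm2_done opp_thm pcs_thm

/-- The two pairs of opposite edges of a 4-cycle `a b d c` do not both cross. -/
theorem c4 {V : Type} {K : SimpleGraph V} (D : MCR.Drawing K) (a b c d : V) (hab : K.Adj a b)
    (hcd : K.Adj c d) (hac : K.Adj a c) (hbd : K.Adj b d) (had : a ≠ d) (hbc : b ≠ c)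
    (hp : D.Crosses s(a, b) s(c, d)) (hq : D.Crosses s(a, c) s(b, d)) : False :=
  c4_thm par_done lc1_done lc2_done D a b c d hab hcd hac hbd had hbc hp hq

end Pool.MXT
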