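import Pool.Agent.H76.MXT.Asm

/-! Two closed curves, each of three injective pieces, whose pieces are disjoint or cross exactly once,
properly and in their interiors, have an even number of crossing pairs of pieces. -/

set_option autoImplicit false

namespace Pool.MXT

open Set

namespace PT

/-- The closed curve of three pieces. -/
noncomputable def cl (f : Fin 3 → ℝ → ℝ × ℝ) : ℝ → ℝ × ℝ := C4.tri (f 0) (f 1) (f 2)

theorem cl_cont (f : Fin 3 → ℝ → ℝ × ℝ) (hf : ∀ i, Continuous (f i))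
    (hj : ∀ i, f i 1 = f (i + 1) 0) : Continuous (cl f) :=
  C4.tri_cont (hf 0) (hf 1) (hf 2) (hj 0) (hj 1)

theorem cl_val (f : Fin 3 → ℝ → ℝ × ℝ) (hj : ∀ i, f i 1 = f (i + 1) 0) (i : Fin 3) (s : ℝ)
    (h0 : (i : ℝ) ≤ s) (h1 : s ≤ (i : ℝ) + 1) : cl f s = f i (s - i) := by
  fin_cases i
  · have h1' : s ≤ 1 := by simpa using h1
    show cl f s = f 0 (s - ((0 : Fin 3) : ℕ))
    rw [cl, C4.tri_1 h1']
    simp
  · have h0' : 1 ≤ s := by simpa using h0
    have h1' : s ≤ 2 := by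
      have : s ≤ 1 + 1 := by simpa using h1
      linarith
    show cl f s = f 1 (s - ((1 : Fin 3) : ℕ))
    rw [cl, C4.tri_2 (show f 0 1 = f 1 0 from hj 0) h0' h1']
    simp
  · have h0' : 2 ≤ s := by simpa using h0
    show cl f s = f 2 (s - ((2 : Fin 3) : ℕ))
    rw [cl, C4.tri_3 (show f 1 1 = f 2 0 from hj 1) h0']
    simp

theorem piece (s : ℝ) (hs : s ∈ Icc (0 : ℝ) 3) :
    ∃ i : Fin 3, (i : ℝ) ≤ s ∧ s ≤ (i : ℝ) + 1 := by
  rcases le_total s 1 with h | h
  · exact ⟨0, by simpa using hs.1, by simpa using h⟩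
  · rcases le_total s 2 with h' | h'
    · exact ⟨1, by simpa using h, by
        simp only [Fin.val_one, Nat.cast_one]
        linarith⟩
    · exact ⟨2, by simpa using h', by
        have := hs.2
        simp only [Fin.val_two, Nat.cast_ofNat]
        linarith⟩

end PT

open Classical in
theorem pt (f g : Fin 3 → ℝ → ℝ × ℝ) (c : Fin 3 → Fin 3 → Prop)
    (hf : ∀ i, Continuous (f i)) (hg : ∀ i, Continuous (g i))
    (fi : ∀ i, InjOn (f i) (Icc 0 1)) (gi : ∀ i, InjOn (g i) (Icc 0 1))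
    (fj : ∀ i, f i 1 = f (i + 1) 0) (gj : ∀ i, g i 1 = g (i + 1) 0)
    (hn : ∀ i j, ¬ c i j → ∀ s ∈ Icc (0 : ℝ) 1, ∀ t ∈ Icc (0 : ℝ) 1, f i s ≠ g j t)
    (hc : ∀ i j, c i j → ∃ (X Y : Set (ℝ × ℝ)) (s₀ t₀ : ℝ), s₀ ∈ Ioo (0 : ℝ) 1 ∧
      t₀ ∈ Ioo (0 : ℝ) 1 ∧ f i s₀ = g j t₀ ∧ MCR.ProperCrossing X Y (f i s₀) ∧
      (∀ s ∈ Icc (0 : ℝ) 1, f i s ∈ X) ∧ (∀ t ∈ Icc (0 : ℝ) 1, g j t ∈ Y) ∧
      ∀ s ∈ Icc (0 : ℝ) 1, ∀ t ∈ Icc (0 : ℝ) 1, f i s = g j t → s = s₀ ∧ t = t₀) :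
    Even (∑ i : Fin 3, ∑ j : Fin 3, if c i j then 1 else 0) := by
  choose X Y s₀ t₀ hs₀ ht₀ hst hpc hX hY huniq using hc
  -- the place of the crossing
  let z : Fin 3 × Fin 3 → ℝ × ℝ := fun q =>
    if h : c q.1 q.2 then ((q.1 : ℝ) + s₀ q.1 q.2 h, (q.2 : ℝ) + t₀ q.1 q.2 h) else (0, 0)
  have hz : ∀ i j (h : c i j), z (i, j) = ((i : ℝ) + s₀ i j h, (j : ℝ) + t₀ i j h) := by
    intro i j h
    simp only [z]
    rw [dif_pos h]
  let P : Finset (Fin 3 × Fin 3) := Finset.univ.filter (fun q => c q.1 q.2)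
  have hP : ∀ i j, (i, j) ∈ P ↔ c i j := by
    intro i j
    simp [P]
  have zinj : Set.InjOn z (P : Set (Fin 3 × Fin 3)) := by
    rintro ⟨i, j⟩ h ⟨i', j'⟩ h' heq
    have h1 : c i j := (hP i j).mp h
    have h2 : c i' j' := (hP i' j').mp h'
    rw [hz i j h1, hz i' j' h2, Prod.mk.injEq] at heq
    obtain ⟨e1, e2⟩ := heq
    have key : ∀ (u v : Fin 3) (x y : ℝ), x ∈ Ioo (0 : ℝ) 1 → y ∈ Ioo (0 : ℝ) 1 →
        (u : ℝ) + x = (v : ℝ) + y → u = v := by
      intro u v x y hx hy h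
      have h3 : ((u : ℕ) : ℝ) < ((v : ℕ) : ℝ) + 1 := by linarith [hx.1, hy.2]
      have h4 : ((v : ℕ) : ℝ) < ((u : ℕ) : ℝ) + 1 := by linarith [hx.2, hy.1]
      have h5 : (u : ℕ) < (v : ℕ) + 1 := by exact_mod_cast h3
      have h6 : (v : ℕ) < (u : ℕ) + 1 := by exact_mod_cast h4
      apply Fin.ext
      omega
    have h3 := key i i' _ _ (hs₀ i j h1) (hs₀ i' j' h2) e1
    have h4 := key j j' _ _ (ht₀ i j h1) (ht₀ i' j' h2) e2
    rw [h3, h4]
  have hA := PT.cl_cont f hf fj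
  have hB := PT.cl_cont g hg gj
  have hE : Even (∑ w ∈ P.image z, (fun _ : ℝ × ℝ => 1) w) := by
    apply par_done (PT.cl f) (PT.cl g) 3 3 (P.image z) (fun _ => 1) (by norm_num) (by norm_num)
      hA.continuousOn hB.continuousOn
    · rw [PT.cl_val f fj 0 0 (by simp) (by simp), PT.cl_val f fj 2 3 (by norm_num) (by norm_num)]
      have := fj 2
      simp only [Fin.val_two, Fin.val_zero] at this ⊢
      norm_num
      rw [this]
      rfl
    · rw [PT.cl_val g gj 0 0 (by simp) (by simp), PT.cl_val g gj 2 3 (by norm_num) (by norm_num)]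
      have := gj 2
      simp only [Fin.val_two, Fin.val_zero] at this ⊢
      norm_num
      rw [this]
      rfl
    · intro s hs t ht h
      obtain ⟨i, hi0, hi1⟩ := PT.piece s hs
      obtain ⟨j, hj0, hj1⟩ := PT.piece t ht
      rw [PT.cl_val f fj i s hi0 hi1, PT.cl_val g gj j t hj0 hj1] at h
      have ms : s - i ∈ Icc (0 : ℝ) 1 := ⟨by linarith, by linarith⟩
      have mt : t - j ∈ Icc (0 : ℝ) 1 := ⟨by linarith, by linarith⟩
      by_cases hcij : c i j
      · obtain ⟨h1, h2⟩ := huniq i j hcij _ ms _ mt h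
        rw [Finset.mem_image]
        refine ⟨(i, j), (hP i j).mpr hcij, ?_⟩
        rw [hz i j hcij]
        ext
        · simp only
          linarith
        · simp only
          linarith
      · exact absurd h (hn i j hcij _ ms _ mt)
    · intro w hw
      rw [Finset.mem_image] at hw
      obtain ⟨⟨i, j⟩, hq, rfl⟩ := hw
      have hcij : c i j := (hP i j).mp hq
      rw [hz i j hcij]
      have hi3 : ((i : ℕ) : ℝ) ≤ 2 := by
        have : (i : ℕ) ≤ 2 := by omega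
        exact_mod_cast this
      have hj3 : ((j : ℕ) : ℝ) ≤ 2 := by
        have : (j : ℕ) ≤ 2 := by omega
        exact_mod_cast this
      have hi0 : (0 : ℝ) ≤ ((i : ℕ) : ℝ) := Nat.cast_nonneg _
      have hj0 : (0 : ℝ) ≤ ((j : ℕ) : ℝ) := Nat.cast_nonneg _
      have bs := hs₀ i j hcij
      have bt := ht₀ i j hcij
      refine ⟨⟨by simp only; linarith [bs.1], by simp only; linarith [bs.2]⟩,
        ⟨by simp only; linarith [bt.1], by simp only; linarith [bt.2]⟩, ?_⟩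
      simp only
      obtain ⟨h, hh0, h1, h2, h3, h4⟩ : ∃ h : ℝ, 0 < h ∧ h ≤ s₀ i j hcij ∧ h ≤ 1 - s₀ i j hcij ∧
          h ≤ t₀ i j hcij ∧ h ≤ 1 - t₀ i j hcij :=
        ⟨min (min (s₀ i j hcij) (1 - s₀ i j hcij)) (min (t₀ i j hcij) (1 - t₀ i j hcij)),
          lt_min (lt_min bs.1 (by linarith [bs.2])) (lt_min bt.1 (by linarith [bt.2])),
          (min_le_left _ _).trans (min_le_left _ _), (min_le_left _ _).trans (min_le_right _ _),
          (min_le_right _ _).trans (min_le_left _ _), (min_le_right _ _).trans (min_le_right _ _)⟩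
      have vA : ∀ s ∈ Icc ((i : ℝ) + s₀ i j hcij - h) ((i : ℝ) + s₀ i j hcij + h),
          PT.cl f s = f i (s - i) ∧ s - i ∈ Icc (0 : ℝ) 1 := fun s hs =>
        ⟨PT.cl_val f fj i s (by linarith [hs.1]) (by linarith [hs.2]),
          by linarith [hs.1], by linarith [hs.2]⟩
      have vB : ∀ s ∈ Icc ((j : ℝ) + t₀ i j hcij - h) ((j : ℝ) + t₀ i j hcij + h),
          PT.cl g s = g j (s - j) ∧ s - j ∈ Icc (0 : ℝ) 1 := fun s hs =>
        ⟨PT.cl_val g gj j s (by linarith [hs.1]) (by linarith [hs.2]),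
          by linarith [hs.1], by linarith [hs.2]⟩
      have mA : (i : ℝ) + s₀ i j hcij ∈
          Icc ((i : ℝ) + s₀ i j hcij - h) ((i : ℝ) + s₀ i j hcij + h) :=
        ⟨by linarith, by linarith⟩
      have mB : (j : ℝ) + t₀ i j hcij ∈
          Icc ((j : ℝ) + t₀ i j hcij - h) ((j : ℝ) + t₀ i j hcij + h) :=
        ⟨by linarith, by linarith⟩
      refine lc1_done (X i j hcij) (Y i j hcij) (f i (s₀ i j hcij)) (hpc i j hcij) _ _ _ _ h hh0
        hA.continuousOn hB.continuousOn ?_ ?_ ?_ ?_ ?_ ?_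
      · intro s hs s' hs' heq
        obtain ⟨v1, m1⟩ := vA s hs
        obtain ⟨v2, m2⟩ := vA s' hs'
        rw [v1, v2] at heq
        have := fi i m1 m2 heq
        linarith
      · intro s hs s' hs' heq
        obtain ⟨v1, m1⟩ := vB s hs
        obtain ⟨v2, m2⟩ := vB s' hs'
        rw [v1, v2] at heq
        have := gi j m1 m2 heq
        linarith
      · intro s hs
        obtain ⟨v1, m1⟩ := vA s hs
        rw [v1]
        exact hX i j hcij _ m1
      · intro s hs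
        obtain ⟨v1, m1⟩ := vB s hs
        rw [v1]
        exact hY i j hcij _ m1
      · rw [(vA _ mA).1, add_sub_cancel_left]
      · rw [(vB _ mB).1, add_sub_cancel_left]
        exact (hst i j hcij).symm
  rw [Finset.sum_image zinj] at hE
  have hsum : (∑ i : Fin 3, ∑ j : Fin 3, if c i j then 1 else 0) = ∑ q ∈ P, 1 := by
    rw [← Fintype.sum_prod_type' (f := fun i j => if c i j then 1 else 0)]
    rw [Finset.sum_filter]
  rw [hsum]
  exact hE

end Pool.MXT
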