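import Pool.Agent.H88.MCR.Defs

/-!
# Analytic core of the parity lemma for MP_ffb5eb_co: statements of the rows of the board `mxt`

Row `XXX` is `theorem xxx_thm (h1 : S_AAA) ... : S_XXX` in `Pool/Agent/H<k>/MXT/XXX.lean`, importing this
file, namespace `Pool.MXT`.

For two closed curves `A`, `B` in the plane look at `F (s,t) = A s - B t` on a rectangle.  The winding
of `F` around the boundary of the rectangle is the sum of the local windings around the zeros.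
-/

set_option autoImplicit false

namespace Pool.MXT

open Set

/-- `L` is a continuous choice of the argument of `g` on `[s,t]`. -/
def IsLift (g : ℝ → ℂ) (s t : ℝ) (L : ℝ → ℝ) : Prop :=
  ContinuousOn L (Icc s t) ∧
    ∀ x ∈ Icc s t, g x = (‖g x‖ : ℂ) * Complex.exp ((L x : ℂ) * Complex.I)

open Classical in
/-- The change of the argument of `g` on `[s,t]`. -/
noncomputable def turn (g : ℝ → ℂ) (s t : ℝ) : ℝ :=
  if h : ∃ L, IsLift g s t L then h.choose t - h.choose s else 0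

/-- `g` is continuous and has no zero on `[s,t]`. -/
def Ok (g : ℝ → ℂ) (s t : ℝ) : Prop := ContinuousOn g (Icc s t) ∧ ∀ x ∈ Icc s t, g x ≠ 0

/-- The winding of `F` around the boundary of the rectangle `[a,b] × [c,d]` (an angle). -/
noncomputable def wnd (F : ℝ → ℝ → ℂ) (a b c d : ℝ) : ℝ :=
  turn (fun x => F x c) a b + turn (fun y => F b y) c d
    - turn (fun x => F x d) a b - turn (fun y => F a y) c d

/-- `F` is continuous on the rectangle. -/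
def Con (F : ℝ → ℝ → ℂ) (a b c d : ℝ) : Prop :=
  ContinuousOn (fun p : ℝ × ℝ => F p.1 p.2) (Icc a b ×ˢ Icc c d)

/-- `F` has no zero on the rectangle. -/
def NZ (F : ℝ → ℝ → ℂ) (a b c d : ℝ) : Prop := ∀ x ∈ Icc a b, ∀ y ∈ Icc c d, F x y ≠ 0

/-- `F` has no zero on the boundary of the rectangle. -/
def NZB (F : ℝ → ℝ → ℂ) (a b c d : ℝ) : Prop :=
  (∀ x ∈ Icc a b, F x c ≠ 0 ∧ F x d ≠ 0) ∧ (∀ y ∈ Icc c d, F a y ≠ 0 ∧ F b y ≠ 0)

/-- The local parity of `F` at `z` is `i`: the winding around all small squares with centre `z` is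
`2 π (2 k + i)`. -/
def LP (F : ℝ → ℝ → ℂ) (z : ℝ × ℝ) (i : ℕ) : Prop :=
  ∃ δ₀ : ℝ, 0 < δ₀ ∧ ∀ δ : ℝ, 0 < δ → δ ≤ δ₀ → ∃ k : ℤ,
    wnd F (z.1 - δ) (z.1 + δ) (z.2 - δ) (z.2 + δ) = 2 * Real.pi * (2 * k + i)

/-- The plane as the complex numbers. -/
def tc (q : ℝ × ℝ) : ℂ := ⟨q.1, q.2⟩

/-- The difference of two curves in the plane. -/
def DF (A B : ℝ → ℝ × ℝ) (s t : ℝ) : ℂ := tc (A s) - tc (B t)

/-- The local parity of the common point `A s₀ = B t₀` of the curves `A` and `B` is `i`. -/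
def ZLoc (A B : ℝ → ℝ × ℝ) (s₀ t₀ : ℝ) (i : ℕ) : Prop := LP (DF A B) (s₀, t₀) i

/-! ## Change of the argument -/

/-- LF2: a continuous function without zeros on a rectangle has a continuous argument.  Extend `F` to the
plane by clamping (`projIcc`, or `max a (min x b)`), `IsCoveringMapOn.existsUnique_continuousMap_lifts` for
`Complex.isCoveringMapOn_exp` on the simply connected space `ℝ × ℝ` (or
`exists_continuousOn_eqOn_exp_comp`), `L = Im log`. -/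
def S_LF2 : Prop := ∀ (F : ℝ → ℝ → ℂ) (a b c d : ℝ), a ≤ b → c ≤ d → Con F a b c d →
  NZ F a b c d → ∃ L : ℝ → ℝ → ℝ,
    ContinuousOn (fun p : ℝ × ℝ => L p.1 p.2) (Icc a b ×ˢ Icc c d) ∧
    ∀ x ∈ Icc a b, ∀ y ∈ Icc c d,
      F x y = (‖F x y‖ : ℂ) * Complex.exp ((L x y : ℂ) * Complex.I)

/-- LFU: existence of a lift, and every lift computes `turn` (two lifts differ by a continuous function
with values in `2 π ℤ`, on a connected set).  Existence: LF2 for `F x y = g x`. -/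
def S_LFU : Prop := ∀ (g : ℝ → ℂ) (s t : ℝ), s ≤ t → Ok g s t →
  (∃ L, IsLift g s t L) ∧ ∀ L, IsLift g s t L → turn g s t = L t - L s

/-- TUR: rules for `turn` (from LFU: restrict, add `π`, reverse the lift). -/
def S_TUR : Prop := ∀ (g : ℝ → ℂ) (s t : ℝ), s ≤ t → Ok g s t →
  (∀ m ∈ Icc s t, turn g s t = turn g s m + turn g m t) ∧
  turn (fun x => - g x) s t = turn g s t ∧
  turn (fun x => g (s + t - x)) s t = - turn g s t ∧
  (∀ h : ℝ → ℂ, (∀ x ∈ Icc s t, h x = g x) → turn h s t = turn g s t) ∧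
  (‖g s‖ : ℂ) * g t = (‖g t‖ : ℂ) * g s * Complex.exp ((turn g s t : ℂ) * Complex.I)

/-- RCT: no zero in the rectangle, no winding (LF2, LFU). -/
def S_RCT : Prop := ∀ (F : ℝ → ℝ → ℂ) (a b c d : ℝ), a ≤ b → c ≤ d → Con F a b c d →
  NZ F a b c d → wnd F a b c d = 0

/-- CUT: cutting a rectangle (TUR, first rule). -/
def S_CUT : Prop := ∀ (F : ℝ → ℝ → ℂ) (a b c d : ℝ), a ≤ b → c ≤ d →
  (∀ m ∈ Icc a b, Ok (fun x => F x c) a b → Ok (fun x => F x d) a b →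
    wnd F a b c d = wnd F a m c d + wnd F m b c d) ∧
  (∀ m ∈ Icc c d, Ok (fun y => F a y) c d → Ok (fun y => F b y) c d →
    wnd F a b c d = wnd F a b c m + wnd F a b m d)

/-- INT: the winding is a multiple of `2 π` (TUR, last rule, four times; `Complex.exp_eq_one_iff`). -/
def S_INT : Prop := ∀ (F : ℝ → ℝ → ℂ) (a b c d : ℝ), a ≤ b → c ≤ d → Con F a b c d →
  NZB F a b c d → ∃ k : ℤ, wnd F a b c d = 2 * Real.pi * k

/-- HOM: homotopy invariance.  RCT for the four rectangles `[0,1] × side`; the contributions of the four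
corners cancel. -/
def S_HOM : Prop := ∀ (H : ℝ → ℝ → ℝ → ℂ) (a b c d : ℝ), a ≤ b → c ≤ d →
  ContinuousOn (fun p : ℝ × ℝ × ℝ => H p.1 p.2.1 p.2.2) (Icc 0 1 ×ˢ (Icc a b ×ˢ Icc c d)) →
  (∀ r ∈ Icc (0 : ℝ) 1, NZB (H r) a b c d) → wnd (H 0) a b c d = wnd (H 1) a b c d

/-- ODD: an odd function has odd winding: top = reversed and negated bottom, left = reversed and negated
right, so the winding is `2 (turn bottom + turn right)`, and `turn bottom + turn right` is an odd multiple of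
`π` because the end value is minus the initial value (TUR). -/
def S_ODD : Prop := ∀ (G : ℝ → ℝ → ℂ) (x₀ y₀ δ : ℝ), 0 < δ →
  Con G (x₀ - δ) (x₀ + δ) (y₀ - δ) (y₀ + δ) → NZB G (x₀ - δ) (x₀ + δ) (y₀ - δ) (y₀ + δ) →
  (∀ x ∈ Icc (x₀ - δ) (x₀ + δ), ∀ y ∈ Icc (y₀ - δ) (y₀ + δ),
    G (2 * x₀ - x) (2 * y₀ - y) = - G x y) →
  ∃ k : ℤ, wnd G (x₀ - δ) (x₀ + δ) (y₀ - δ) (y₀ + δ) = 2 * Real.pi * (2 * k + 1)

/-- ISO: a rectangle with a single zero, and a square around it: cut into nine (CUT), RCT for eight. -/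
def S_ISO : Prop := ∀ (F : ℝ → ℝ → ℂ) (a b c d x₀ y₀ δ : ℝ), 0 < δ → a ≤ x₀ - δ → x₀ + δ ≤ b →
  c ≤ y₀ - δ → y₀ + δ ≤ d → Con F a b c d →
  (∀ x ∈ Icc a b, ∀ y ∈ Icc c d, F x y = 0 → x = x₀ ∧ y = y₀) → F a c ≠ 0 →
  wnd F a b c d = wnd F (x₀ - δ) (x₀ + δ) (y₀ - δ) (y₀ + δ)

/-- GLB: finitely many zeros, all in the open rectangle.  Strong induction on the number of zeros: none: RCT;
one: ISO; two different ones: a vertical line `x = m` between different first coordinates avoiding all the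
first coordinates of `Z`, or a horizontal one, CUT. -/
def S_GLB : Prop := ∀ (F : ℝ → ℝ → ℂ) (Z : Finset (ℝ × ℝ)) (i : ℝ × ℝ → ℕ) (a b c d : ℝ),
  a < b → c < d → Con F a b c d →
  (∀ x ∈ Icc a b, ∀ y ∈ Icc c d, F x y = 0 → (x, y) ∈ Z) →
  (∀ z ∈ Z, z.1 ∈ Ioo a b ∧ z.2 ∈ Ioo c d ∧ LP F z (i z)) →
  ∃ k : ℤ, wnd F a b c d = 2 * Real.pi * (2 * k + (∑ z ∈ Z, i z : ℕ))

/-- PAR: two closed curves in the plane, finitely many common points with known local parities, the first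
point of neither lies on the other: the sum of the local parities is even.  GLB for `DF A B`; bottom = top and
left = right (`A 0 = A m`, `B 0 = B n`), so the winding is `0`. -/
def S_PAR : Prop := ∀ (A B : ℝ → ℝ × ℝ) (m n : ℝ) (Z : Finset (ℝ × ℝ)) (i : ℝ × ℝ → ℕ),
  0 < m → 0 < n → ContinuousOn A (Icc 0 m) → ContinuousOn B (Icc 0 n) → A 0 = A m → B 0 = B n →
  (∀ s ∈ Icc 0 m, ∀ t ∈ Icc 0 n, A s = B t → (s, t) ∈ Z) →
  (∀ z ∈ Z, z.1 ∈ Ioo 0 m ∧ z.2 ∈ Ioo 0 n ∧ ZLoc A B z.1 z.2 (i z)) →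
  Even (∑ z ∈ Z, i z)

/-! ## Local parities -/

/-- HM1: local form of a proper crossing.  Homotopies (HOM):
`Ψ (a s, - r b t) - Ψ (0, (1 - r) b t)`, zero only if `a s = 0` and `b t = 0`;
`Ψ (v / (1 + r)) - Ψ (- r v / (1 + r))`, `v = (a s, - b t)`, zero only if `v = 0`;
`O v = Ψ (v / 2) - Ψ (- v / 2)` is odd and zero only for `v = 0`; at last
`O ((1 - r) a s + r σ (s - s₀), - ((1 - r) b t + r τ (t - t₀)))`, and ODD. -/
def S_HM1 : Prop := ∀ (Ψ : ℝ × ℝ → ℂ) (a b : ℝ → ℝ) (s₀ t₀ δ σ τ : ℝ), Continuous Ψ →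
  Function.Injective Ψ → 0 < δ → (σ = 1 ∨ σ = -1) → (τ = 1 ∨ τ = -1) →
  ContinuousOn a (Icc (s₀ - δ) (s₀ + δ)) → ContinuousOn b (Icc (t₀ - δ) (t₀ + δ)) →
  (∀ s ∈ Icc (s₀ - δ) (s₀ + δ), 0 ≤ σ * a s * (s - s₀) ∧ (a s = 0 → s = s₀)) →
  (∀ t ∈ Icc (t₀ - δ) (t₀ + δ), 0 ≤ τ * b t * (t - t₀) ∧ (b t = 0 → t = t₀)) →
  ∃ k : ℤ, wnd (fun s t => Ψ (a s, 0) - Ψ (0, b t)) (s₀ - δ) (s₀ + δ) (t₀ - δ) (t₀ + δ) =
    2 * Real.pi * (2 * k + 1)

/-- HM2: local form of two corners in opposite quadrants: `Ψ (c₁ s + r (σ, τ)) - Ψ (c₂ t)` (HOM), and RCT for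
`r = 1`. -/
def S_HM2 : Prop := ∀ (Ψ : ℝ × ℝ → ℂ) (c₁ c₂ : ℝ → ℝ × ℝ) (s₀ t₀ δ σ τ : ℝ), Continuous Ψ →
  Function.Injective Ψ → 0 < δ → (σ = 1 ∨ σ = -1) → (τ = 1 ∨ τ = -1) →
  ContinuousOn c₁ (Icc (s₀ - δ) (s₀ + δ)) → ContinuousOn c₂ (Icc (t₀ - δ) (t₀ + δ)) →
  (∀ s ∈ Icc (s₀ - δ) (s₀ + δ), 0 ≤ σ * (c₁ s).1 ∧ 0 ≤ τ * (c₁ s).2 ∧ (c₁ s = 0 → s = s₀)) →
  (∀ t ∈ Icc (t₀ - δ) (t₀ + δ), σ * (c₂ t).1 ≤ 0 ∧ τ * (c₂ t).2 ≤ 0 ∧ (c₂ t = 0 → t = t₀)) →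
  wnd (fun s t => Ψ (c₁ s) - Ψ (c₂ t)) (s₀ - δ) (s₀ + δ) (t₀ - δ) (t₀ + δ) = 0

/-- PCS: a proper crossing is symmetric (exchange the coordinates). -/
def S_PCS : Prop := ∀ (X Y : Set (ℝ × ℝ)) (p : ℝ × ℝ), MCR.ProperCrossing X Y p →
  MCR.ProperCrossing Y X p

/-- SGN: an injective continuous real function changes sign at its zero. -/
def S_SGN : Prop := ∀ (a : ℝ → ℝ) (s₀ δ : ℝ), 0 < δ → ContinuousOn a (Icc (s₀ - δ) (s₀ + δ)) →
  InjOn a (Icc (s₀ - δ) (s₀ + δ)) → a s₀ = 0 →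
  ∃ σ : ℝ, (σ = 1 ∨ σ = -1) ∧
    ∀ s ∈ Icc (s₀ - δ) (s₀ + δ), 0 ≤ σ * a s * (s - s₀) ∧ (a s = 0 → s = s₀)

/-- OPP: two real functions on one-sided neighbourhoods (`I` and `J` are intervals `[0,δ]` in the variable
`u`), zero only at `0`, without common nonzero value, have opposite signs (intermediate values). -/
def S_OPP : Prop := ∀ (a b : ℝ → ℝ) (δ : ℝ), 0 < δ → ContinuousOn a (Icc 0 δ) →
  ContinuousOn b (Icc 0 δ) → a 0 = 0 → b 0 = 0 → (∀ u ∈ Ioc 0 δ, a u ≠ 0) →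
  (∀ u ∈ Ioc 0 δ, b u ≠ 0) → (∀ u ∈ Ioc 0 δ, ∀ v ∈ Ioc 0 δ, a u ≠ b v) →
  ∃ σ : ℝ, (σ = 1 ∨ σ = -1) ∧ (∀ u ∈ Icc 0 δ, 0 ≤ σ * a u) ∧ (∀ u ∈ Icc 0 δ, σ * b u ≤ 0)

/-- LC1: two curves that cross properly (HM1, SGN).  `Φ`, `U` from `ProperCrossing`; for `s` near `s₀` the
point `A s` is in `U`, so `Φ (A s) = (a s, 0)`; `Ψ = tc ∘ Φ.symm`; then replace `DF A B` by
`Ψ (a s, 0) - Ψ (0, b t)` (they are equal on the small square; TUR for the congruence). -/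
def S_LC1 : Prop := ∀ (X Y : Set (ℝ × ℝ)) (p : ℝ × ℝ), MCR.ProperCrossing X Y p →
  ∀ (A B : ℝ → ℝ × ℝ) (s₀ t₀ h : ℝ), 0 < h →
  ContinuousOn A (Icc (s₀ - h) (s₀ + h)) → ContinuousOn B (Icc (t₀ - h) (t₀ + h)) →
  InjOn A (Icc (s₀ - h) (s₀ + h)) → InjOn B (Icc (t₀ - h) (t₀ + h)) →
  (∀ s ∈ Icc (s₀ - h) (s₀ + h), A s ∈ X) → (∀ t ∈ Icc (t₀ - h) (t₀ + h), B t ∈ Y) →
  A s₀ = p → B t₀ = p → ZLoc A B s₀ t₀ 1

/-- LC2: two curves that both turn at a proper crossing, from `X` to `Y` or from `Y` to `X`, and have no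
other common point (HM2, OPP, PCS; TUR for the congruence).  By `PCS` assume that `A` comes along `X`.
In the chart: `A s = (a s, 0)` before `s₀` and `(0, a' s)` after; `B` has one half on each axis, and OPP says
that it is the other half. -/
def S_LC2 : Prop := ∀ (X Y : Set (ℝ × ℝ)) (p : ℝ × ℝ), MCR.ProperCrossing X Y p →
  ∀ (A B : ℝ → ℝ × ℝ) (s₀ t₀ h : ℝ), 0 < h →
  ContinuousOn A (Icc (s₀ - h) (s₀ + h)) → ContinuousOn B (Icc (t₀ - h) (t₀ + h)) →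
  InjOn A (Icc (s₀ - h) (s₀ + h)) → InjOn B (Icc (t₀ - h) (t₀ + h)) →
  (((∀ s ∈ Icc (s₀ - h) s₀, A s ∈ X) ∧ (∀ s ∈ Icc s₀ (s₀ + h), A s ∈ Y)) ∨
    ((∀ s ∈ Icc (s₀ - h) s₀, A s ∈ Y) ∧ (∀ s ∈ Icc s₀ (s₀ + h), A s ∈ X))) →
  (((∀ t ∈ Icc (t₀ - h) t₀, B t ∈ X) ∧ (∀ t ∈ Icc t₀ (t₀ + h), B t ∈ Y)) ∨
    ((∀ t ∈ Icc (t₀ - h) t₀, B t ∈ Y) ∧ (∀ t ∈ Icc t₀ (t₀ + h), B t ∈ X))) →
  A s₀ = p → B t₀ = p →
  (∀ s ∈ Icc (s₀ - h) (s₀ + h), ∀ t ∈ Icc (t₀ - h) (t₀ + h), A s = B t → s = s₀ ∧ t = t₀) →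
  ZLoc A B s₀ t₀ 0

end Pool.MXT
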